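import Pool.Agent.H525.EX.Stm4
import Pool.Agent.H685.EX.D2

/-!
# The derivative of the contiguity relation for `h0` at `Y = 1` (project EX, task D3)
-/

set_option autoImplicit false

namespace Pool.Agent.H215.EX

open Pool.Agent.H525.EX
open Pool.Agent.H685.EX (Row row_u row_v)

theorem t_d3 : S_d3 := by
  intro s P u v u' v' h h' hv hR n
  have hz : Row (fun _ : ℤ => (0 : ℝ)) 0 0 := by
    refine ⟨hasSum_zero, ?_⟩
    simp only [mul_zero]
    exact hasSum_zero
  have hu : ∀ m : ℤ, Row (u m) (if m = 0 then 1 else 0) (du u m) := fun m => row_u h m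
  have hu' : ∀ m : ℤ, Row (u' m) (if m = 0 then 1 else 0) (du u' m) := fun m => row_u h' m
  have hvv : ∀ m : ℤ, Row (v m) 0 (-dv v m) := fun m => by
    have := row_v h m
    rwa [hv m] at this
  have key := (Row.unique
    ((((((((hu n).sub ((hu n).shift 1)).add ((hu n).shift 2)).sub
      (((hu (n - (2 * s + 1))).shift (2 * s + 1)).mul ((-1) ^ s * P))).add
      (((hu (n - (2 * s + 1))).shift (2 * s + 3)).mul ((-1) ^ s * P))).sub
      (((hu (n - (4 * s + 2))).shift (4 * s + 3)).mul (P ^ 2))).sub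
      (((hvv n).sub ((hvv n).shift 1)).add
        ((((hvv (n - (4 * s + 2))).shift (4 * s + 2)).sub
          ((hvv (n - (4 * s + 2))).shift (4 * s + 3))).mul (P ^ 2)))).sub
      (((hu' n).shift 1).sub (((hu' (n - (4 * s + 2))).shift (4 * s + 3)).mul (P ^ 2))))
    hz (fun e => hR n e)).2
  have h2 : (if n = 2 * (s : ℤ) + 1 then 2 * (-1) ^ s * P else 0) =
      2 * (-1) ^ s * P * (if n - (2 * (s : ℤ) + 1) = 0 then (1 : ℝ) else 0) := by
    rw [mul_ite, mul_one, mul_zero]
    exact if_congr sub_eq_zero.symm rfl rfl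
  rw [h2]
  push_cast at key ⊢
  linear_combination key

end Pool.Agent.H215.EX
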